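import Pool.Agent.R853.Obs.Stm

/-!
# MP_0a8f24_an, piece OB-A: analyticity and boundary continuity of parameter integrals
-/

set_option autoImplicit false

open MeasureTheory FourierTransform SchwartzMap Complex Filter Topology
open scoped ENNReal InnerProductSpace ComplexConjugate ContDiff
open Pool.Agent.R853.Obs

namespace Pool.Agent.R157.OBA

variable {d : ℕ}

lemma htg : Function.HasTemperateGrowth (fun ξ : E d => (((1 + ‖ξ‖ ^ 2 : ℝ)) : ℂ)) := by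
  fun_prop

lemma int_base (H : E d → ℂ) (hH : MemLp H 2 volume) (χ : 𝓢(E d, ℂ)) :
    Integrable (fun ξ => (1 + ‖ξ‖ ^ 2) * (‖H ξ‖ * ‖χ ξ‖)) := by
  have h1 := (SchwartzMap.smulLeftCLM ℂ (fun ξ : E d => (((1 + ‖ξ‖ ^ 2 : ℝ)) : ℂ)) χ).memLp 2 volume
  have h2 := (hH.integrable_mul h1).norm
  refine h2.congr (Filter.Eventually.of_forall fun ξ => ?_)
  simp only [Pi.mul_apply]
  rw [SchwartzMap.smulLeftCLM_apply_apply htg, norm_mul, smul_eq_mul, norm_mul, Complex.norm_real,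
    Real.norm_of_nonneg (by positivity)]
  ring

lemma norm_ex (q : E d) (c ζ : ℂ) (ξ : E d) :
    ‖ex q c ζ ξ‖ = Real.exp (-c.re * ‖ξ‖ ^ 2 + 2 * Real.pi * ζ.im * ⟪q, ξ⟫_ℝ) := by
  unfold ex
  rw [Complex.norm_exp]
  congr 1
  have h1 : (-c * (‖ξ‖ : ℂ) ^ 2).re = -c.re * ‖ξ‖ ^ 2 := by
    rw [← Complex.ofReal_pow, Complex.re_mul_ofReal, Complex.neg_re]
  have h2 : (ζ * (2 * Real.pi * I * (⟪q, ξ⟫_ℝ : ℂ))).re = -(2 * Real.pi * ζ.im * ⟪q, ξ⟫_ℝ) := by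
    have : ζ * (2 * Real.pi * I * (⟪q, ξ⟫_ℝ : ℂ)) = (ζ * I) * ((2 * Real.pi * ⟪q, ξ⟫_ℝ : ℝ) : ℂ) := by
      push_cast; ring
    rw [this, Complex.re_mul_ofReal, Complex.mul_I_re]
    ring
  rw [Complex.sub_re, h1, h2]
  ring

lemma ex_cont (q : E d) (c ζ : ℂ) : Continuous (ex q c ζ) := by
  unfold ex
  fun_prop

lemma norm_ex_le_one (q : E d) (c : ℂ) (hc : 0 ≤ c.re) (ξ : E d) : ‖ex q c 0 ξ‖ ≤ 1 := by
  rw [norm_ex]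
  rw [Real.exp_le_one_iff]
  have : 0 ≤ c.re * ‖ξ‖ ^ 2 := by positivity
  simp
  linarith

theorem stA1 : StA1 := by
  intro d q H hH χ
  have hbase := int_base H hH χ
  have hmeas : ∀ c : ℂ, AEStronglyMeasurable (fun ξ => H ξ * (ex q c 0 ξ * χ ξ)) volume := by
    intro c
    exact hH.1.mul (((ex_cont q c 0).mul χ.continuous).aestronglyMeasurable)
  have hb0 : ∀ ξ : E d, ‖H ξ‖ * ‖χ ξ‖ ≤ (1 + ‖ξ‖ ^ 2) * (‖H ξ‖ * ‖χ ξ‖) := by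
    intro ξ
    have : 0 ≤ ‖ξ‖ ^ 2 * (‖H ξ‖ * ‖χ ξ‖) := by positivity
    nlinarith
  have hbd : ∀ c : ℂ, 0 ≤ c.re → ∀ ξ : E d,
      ‖H ξ * (ex q c 0 ξ * χ ξ)‖ ≤ (1 + ‖ξ‖ ^ 2) * (‖H ξ‖ * ‖χ ξ‖) := by
    intro c hc ξ
    rw [norm_mul, norm_mul]
    refine le_trans ?_ (hb0 ξ)
    have := norm_ex_le_one q c hc ξ
    calc ‖H ξ‖ * (‖ex q c 0 ξ‖ * ‖χ ξ‖) ≤ ‖H ξ‖ * (1 * ‖χ ξ‖) := by gcongr
      _ = ‖H ξ‖ * ‖χ ξ‖ := by ring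
  refine ⟨?_, ?_⟩
  · refine continuousOn_of_dominated (fun c _ => hmeas c)
      (fun c hc => Filter.Eventually.of_forall (hbd c hc)) hbase
      (Filter.Eventually.of_forall fun ξ => ?_)
    apply Continuous.continuousOn
    unfold ex
    fun_prop
  · intro c0 hc0
    have hc0' : 0 < c0.re := hc0
    have hopen : IsOpen {c : ℂ | 0 < c.re} := isOpen_lt continuous_const Complex.continuous_re
    have key := hasDerivAt_integral_of_dominated_loc_of_deriv_le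
      (F := fun c ξ => H ξ * (ex q c 0 ξ * χ ξ)) (μ := (volume : Measure (E d)))
      (F' := fun c ξ => H ξ * ((ex q c 0 ξ * (-1 * (‖ξ‖ : ℂ) ^ 2)) * χ ξ)) (x₀ := c0)
      (s := {c : ℂ | 0 < c.re}) (bound := fun ξ => (1 + ‖ξ‖ ^ 2) * (‖H ξ‖ * ‖χ ξ‖))
      (hopen.mem_nhds hc0') (Filter.Eventually.of_forall hmeas) ?_ ?_ ?_ hbase ?_
    · exact key.2.differentiableAt.differentiableWithinAt
    · exact hbase.mono' (hmeas c0) (Filter.Eventually.of_forall (hbd c0 hc0'.le))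
    · refine hH.1.mul (Continuous.aestronglyMeasurable ?_)
      exact ((ex_cont q c0 0).mul (by fun_prop)).mul χ.continuous
    · refine Filter.Eventually.of_forall fun ξ c hc => ?_
      rw [norm_mul, norm_mul, norm_mul, norm_mul, norm_neg, norm_one, norm_pow, Complex.norm_real,
        norm_norm]
      have h1 := norm_ex_le_one q c (le_of_lt hc) ξ
      calc ‖H ξ‖ * (‖ex q c 0 ξ‖ * (1 * ‖ξ‖ ^ 2) * ‖χ ξ‖)
          ≤ ‖H ξ‖ * (1 * (1 * ‖ξ‖ ^ 2) * ‖χ ξ‖) := by gcongr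
        _ ≤ (1 + ‖ξ‖ ^ 2) * (‖H ξ‖ * ‖χ ξ‖) := by
          have : 0 ≤ ‖H ξ‖ * ‖χ ξ‖ := by positivity
          nlinarith
    · refine Filter.Eventually.of_forall fun ξ c _ => ?_
      have e1 : HasDerivAt (fun c : ℂ => -c * (‖ξ‖ : ℂ) ^ 2 - 0 * (2 * Real.pi * I * (⟪q, ξ⟫_ℝ : ℂ)))
          (-1 * (‖ξ‖ : ℂ) ^ 2) c :=
        (((hasDerivAt_id c).neg).mul_const _).sub_const _
      have e2 := e1.cexp
      exact (e2.mul_const (χ ξ)).const_mul (H ξ)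

theorem stA2 : StA2 := by
  intro d q H hH χ ζ0
  have hbase := int_base H hH χ
  have hmeas : ∀ ζ : ℂ, AEStronglyMeasurable (fun ξ => H ξ * (ex q 1 ζ ξ * χ ξ)) volume := by
    intro ζ
    exact hH.1.mul (((ex_cont q 1 ζ).mul χ.continuous).aestronglyMeasurable)
  set B : ℝ := |ζ0.im| + 1 with hB
  have hB0 : 0 < B := by positivity
  set M : ℝ := Real.exp ((Real.pi * B * ‖q‖) ^ 2) with hM
  have hM0 : 0 < M := Real.exp_pos _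
  have hpi := Real.pi_pos
  -- bound of the exponential
  have hex : ∀ ζ ∈ Metric.ball ζ0 1, ∀ ξ : E d, ‖ex q 1 ζ ξ‖ ≤ M := by
    intro ζ hζ ξ
    rw [norm_ex, hM, Real.exp_le_exp]
    have h1 : |ζ.im| ≤ B := by
      have h2 : |(ζ - ζ0).im| ≤ ‖ζ - ζ0‖ := Complex.abs_im_le_norm _
      rw [Metric.mem_ball, dist_eq_norm] at hζ
      rw [Complex.sub_im] at h2
      have h3 : |ζ.im| ≤ |ζ.im - ζ0.im| + |ζ0.im| := by
        have := abs_add_le (ζ.im - ζ0.im) ζ0.im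
        rwa [sub_add_cancel] at this
      linarith
    have h2 : |⟪q, ξ⟫_ℝ| ≤ ‖q‖ * ‖ξ‖ := abs_real_inner_le_norm q ξ
    have h3 : ζ.im * ⟪q, ξ⟫_ℝ ≤ B * (‖q‖ * ‖ξ‖) := by
      calc ζ.im * ⟪q, ξ⟫_ℝ ≤ |ζ.im * ⟪q, ξ⟫_ℝ| := le_abs_self _
        _ = |ζ.im| * |⟪q, ξ⟫_ℝ| := abs_mul _ _
        _ ≤ B * (‖q‖ * ‖ξ‖) := by gcongr
    have h4 : 2 * Real.pi * ζ.im * ⟪q, ξ⟫_ℝ ≤ 2 * (Real.pi * B * ‖q‖) * ‖ξ‖ := by
      have := mul_le_mul_of_nonneg_left h3 (by positivity : 0 ≤ 2 * Real.pi)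
      calc 2 * Real.pi * ζ.im * ⟪q, ξ⟫_ℝ = 2 * Real.pi * (ζ.im * ⟪q, ξ⟫_ℝ) := by ring
        _ ≤ 2 * Real.pi * (B * (‖q‖ * ‖ξ‖)) := this
        _ = _ := by ring
    rw [Complex.one_re]
    nlinarith [sq_nonneg (Real.pi * B * ‖q‖ - ‖ξ‖)]
  have key := hasDerivAt_integral_of_dominated_loc_of_deriv_le
    (F := fun ζ ξ => H ξ * (ex q 1 ζ ξ * χ ξ)) (μ := (volume : Measure (E d)))
    (F' := fun ζ ξ => H ξ * ((ex q 1 ζ ξ * (-(1 * (2 * Real.pi * I * (⟪q, ξ⟫_ℝ : ℂ))))) * χ ξ))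
    (x₀ := ζ0) (s := Metric.ball ζ0 1)
    (bound := fun ξ => (M * (2 * Real.pi * ‖q‖)) * ((1 + ‖ξ‖ ^ 2) * (‖H ξ‖ * ‖χ ξ‖)))
    (Metric.ball_mem_nhds ζ0 one_pos) (Filter.Eventually.of_forall hmeas) ?_ ?_ ?_
    (hbase.const_mul _) ?_
  · exact key.2.differentiableAt
  · refine (hbase.const_mul M).mono' (hmeas ζ0) (Filter.Eventually.of_forall fun ξ => ?_)
    have h1 := hex ζ0 (Metric.mem_ball_self one_pos) ξ
    rw [norm_mul, norm_mul]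
    calc ‖H ξ‖ * (‖ex q 1 ζ0 ξ‖ * ‖χ ξ‖) ≤ ‖H ξ‖ * (M * ‖χ ξ‖) := by gcongr
      _ ≤ M * ((1 + ‖ξ‖ ^ 2) * (‖H ξ‖ * ‖χ ξ‖)) := by
        have : 0 ≤ M * (‖ξ‖ ^ 2 * (‖H ξ‖ * ‖χ ξ‖)) := by positivity
        nlinarith
  · refine hH.1.mul (Continuous.aestronglyMeasurable ?_)
    exact ((ex_cont q 1 ζ0).mul (by fun_prop)).mul χ.continuous
  · refine Filter.Eventually.of_forall fun ξ ζ hζ => ?_
    have h1 := hex ζ hζ ξ
    have h2 : |⟪q, ξ⟫_ℝ| ≤ ‖q‖ * ‖ξ‖ := abs_real_inner_le_norm q ξ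
    have h3 : ‖(-(1 * (2 * Real.pi * I * (⟪q, ξ⟫_ℝ : ℂ))) : ℂ)‖ = 2 * Real.pi * |⟪q, ξ⟫_ℝ| := by
      rw [norm_neg, one_mul, norm_mul, norm_mul, norm_mul, Complex.norm_I, Complex.norm_real,
        Complex.norm_real, Real.norm_of_nonneg hpi.le, Real.norm_eq_abs]
      simp
    have h4 : ‖ξ‖ ≤ 1 + ‖ξ‖ ^ 2 := by nlinarith [sq_nonneg (‖ξ‖ - 1), norm_nonneg ξ]
    rw [norm_mul, norm_mul, norm_mul, h3]
    calc ‖H ξ‖ * (‖ex q 1 ζ ξ‖ * (2 * Real.pi * |⟪q, ξ⟫_ℝ|) * ‖χ ξ‖)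
        ≤ ‖H ξ‖ * (M * (2 * Real.pi * (‖q‖ * (1 + ‖ξ‖ ^ 2))) * ‖χ ξ‖) := by
          gcongr
          exact h2.trans (by gcongr)
      _ = M * (2 * Real.pi * ‖q‖) * ((1 + ‖ξ‖ ^ 2) * (‖H ξ‖ * ‖χ ξ‖)) := by ring
  · refine Filter.Eventually.of_forall fun ξ ζ _ => ?_
    have e1 : HasDerivAt (fun ζ : ℂ => -1 * (‖ξ‖ : ℂ) ^ 2 - ζ * (2 * Real.pi * I * (⟪q, ξ⟫_ℝ : ℂ)))
        (-(1 * (2 * Real.pi * I * (⟪q, ξ⟫_ℝ : ℂ)))) ζ :=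
      ((hasDerivAt_id ζ).mul_const _).const_sub _
    have e2 := e1.cexp
    exact (e2.mul_const (χ ξ)).const_mul (H ξ)

end Pool.Agent.R157.OBA
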