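import Pool.Agent.R497.TB.Defs
import Pool.Agent.R711.TDDBD
import Pool.Agent.Y957.MC.Flw1

/-!
Project TB (MP_f720ae_an), piece BSM (helper157): second moment without smoothness.
-/

set_option autoImplicit false

namespace Pool.Agent.R157.TB

open MeasureTheory Filter Finset
open Pool.Agent.R497.TB
open Pool.Agent.Y957.MC
open Pool.Agent.Y48.MC (smo_meas)
open Pool.Agent.R711.TDDBD (phi phi_meas phi_bdd sq_eq ii intg flow_meas)

universe u

section

variable {X : Type u} [MeasurableSpace X] {μ : Measure X} [IsProbabilityMeasure μ] {σ : ℝ → X → X}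

theorem dsum2 {f : ℕ → ℕ → ℝ → ℝ} (hf : ∀ n m, IntervalIntegrable (f n m) volume 1 2)
    (s t : Finset ℕ) : ∫ a in (1 : ℝ)..2, ∑ n ∈ s, ∑ m ∈ t, f n m a =
      ∑ n ∈ s, ∑ m ∈ t, ∫ a in (1 : ℝ)..2, f n m a := by
  have h : ∀ n, IntervalIntegrable (fun a => ∑ m ∈ t, f n m a) volume 1 2 := fun n => by
    have h1 := IntervalIntegrable.sum t (f := f n) (fun m _ => hf n m)
    have h2 : (∑ m ∈ t, f n m) = fun a => ∑ m ∈ t, f n m a := by
      funext a
      rw [Finset.sum_apply]
    rwa [h2] at h1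
  rw [intervalIntegral.integral_finsetSum fun n _ => h n]
  exact sum_congr rfl fun n _ => intervalIntegral.integral_finsetSum fun m _ => hf n m

theorem bound2 {f : ℝ → ℝ} (C : ℝ) (hb : ∀ x, |f x| ≤ C) :
    |∫ a in (1 : ℝ)..2, f a| ≤ C := by
  have h : ‖∫ a in (1 : ℝ)..2, f a‖ ≤ C * |2 - 1| :=
    intervalIntegral.norm_integral_le_of_norm_le_const fun x _ => hb x
  rw [Real.norm_eq_abs] at h
  refine h.trans (le_of_eq ?_)
  rw [abs_of_pos (by norm_num)]
  ring

/-- the smooth error term -/
noncomputable def w (σ : ℝ → X → X) (e : X → ℝ) (T : ℝ) (x : X) : ℝ := e x - smo σ e T x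

omit [IsProbabilityMeasure μ] in
theorem w_meas (hσ : IsFlow μ σ) {e : X → ℝ} (he : Measurable e) {T : ℝ} (hT : 0 < T) :
    Measurable (w σ e T) := he.sub (smo_meas hσ he hT.le)

omit [IsProbabilityMeasure μ] in
theorem e_ii (hσ : IsFlow μ σ) {e : X → ℝ} (he : Measurable e) (hb : ∀ x, 0 ≤ e x ∧ e x ≤ 1)
    (x : X) (u v : ℝ) : IntervalIntegrable (fun r => e (σ r x)) volume u v := by
  have hm : Measurable fun r => e (σ r x) := he.comp (hσ.meas.comp measurable_prodMk_right)
  refine ii hm 1 (fun r => ?_) u v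
  rw [abs_of_nonneg (hb _).1]
  exact (hb _).2

omit [IsProbabilityMeasure μ] in
theorem w_bdd (hσ : IsFlow μ σ) {e : X → ℝ} (he : Measurable e) (hb : ∀ x, 0 ≤ e x ∧ e x ≤ 1)
    {T : ℝ} (hT : 0 < T) (x : X) : |w σ e T x| ≤ 1 := by
  have h1 : 0 ≤ smo σ e T x := by
    unfold smo
    apply mul_nonneg (by positivity)
    exact intervalIntegral.integral_nonneg hT.le fun r _ => (hb _).1
  have h2 : smo σ e T x ≤ 1 := by
    unfold smo
    have h3 : ∫ r in (0 : ℝ)..T, e (σ r x) ≤ ∫ _r in (0 : ℝ)..T, (1 : ℝ) :=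
      intervalIntegral.integral_mono_on hT.le (e_ii hσ he hb x 0 T) intervalIntegrable_const
        fun r _ => (hb _).2
    rw [intervalIntegral.integral_const, smul_eq_mul, mul_one, sub_zero] at h3
    calc 1 / T * ∫ r in (0 : ℝ)..T, e (σ r x) ≤ 1 / T * T :=
          mul_le_mul_of_nonneg_left h3 (by positivity)
      _ = 1 := by field_simp
  have h3 := hb x
  unfold w
  rw [abs_le]
  constructor <;> linarith

theorem w_int (hσ : IsFlow μ σ) {e : X → ℝ} (he : Measurable e) (hb : ∀ x, 0 ≤ e x ∧ e x ≤ 1)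
    {T : ℝ} (hT : 0 < T) (x : X) (y : ℝ) : |∫ s in y..(2 * y), w σ e T (σ s x)| ≤ 4 * T := by
  have hC : ∀ x, |e x| ≤ 1 := fun x => by
    rw [abs_of_nonneg (hb _).1]
    exact (hb _).2
  have hp : ∀ (x : X) (v : ℝ), 0 ≤ v → |∫ u in (0 : ℝ)..v, w σ e T (σ u x)| ≤ 2 * T := by
    intro x v hv
    have := prim_bd hσ he hC hT x hv
    rw [mul_one] at this
    exact this
  have hmw : Measurable fun s => w σ e T (σ s x) :=
    (w_meas hσ he hT).comp (hσ.meas.comp measurable_prodMk_right)
  have hii : ∀ u v, IntervalIntegrable (fun s => w σ e T (σ s x)) volume u v := fun u v =>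
    ii hmw 1 (fun s => w_bdd hσ he hb hT _) u v
  rcases le_or_gt 0 y with hy | hy
  · have h1 : ∫ s in y..(2 * y), w σ e T (σ s x) =
        (∫ s in (0 : ℝ)..(2 * y), w σ e T (σ s x)) - ∫ s in (0 : ℝ)..y, w σ e T (σ s x) := by
      rw [intervalIntegral.integral_interval_sub_left (hii _ _) (hii _ _)]
    rw [h1]
    have h2 := hp x (2 * y) (by linarith)
    have h3 := hp x y hy
    refine (abs_sub _ _).trans ?_
    linarith
  · have h1 : ∫ s in y..(2 * y), w σ e T (σ s x) =
        - ∫ s in (0 : ℝ)..(-y), w σ e T (σ s (σ (2 * y) x)) := by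
      rw [intervalIntegral.integral_symm]
      congr 1
      have h2 : ∀ s, w σ e T (σ s (σ (2 * y) x)) = (fun r => w σ e T (σ r x)) (s + 2 * y) := by
        intro s
        simp only
        rw [hσ.add]
      simp only [h2]
      rw [intervalIntegral.integral_comp_add_right (fun r => w σ e T (σ r x))]
      congr 1 <;> ring
    rw [h1, abs_neg]
    have h2 := hp (σ (2 * y) x) (-y) (by linarith)
    linarith

/-- far pairs -/
theorem far (hσ : IsFlow μ σ) {e : X → ℝ} (he : Measurable e) (hb : ∀ x, 0 ≤ e x ∧ e x ≤ 1)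
    {T Y : ℝ} (hT : 0 < T) (hY : 0 < Y) (V : ℕ → X → ℝ) (n m : ℕ) (hn : V n = w σ e T)
    (hm : V m = w σ e T) (y : ℝ) (hy : Y ≤ |y|) :
    |∫ a in (1 : ℝ)..2, phi μ σ V n m (a * y)| ≤ 4 * T / Y := by
  have hy0 : y ≠ 0 := by
    intro h
    rw [h, abs_zero] at hy
    linarith
  have hsw : ∫ a in (1 : ℝ)..2, phi μ σ V n m (a * y) =
      ∫ x, (∫ a in (1 : ℝ)..2, w σ e T (σ (a * y) x)) * w σ e T x ∂μ := by
    unfold phi
    rw [hn, hm, intervalIntegral.integral_of_le (by norm_num)]
    rw [integral_integral_swap (f := fun a x => w σ e T (σ (a * y) x) * w σ e T x)]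
    · apply integral_congr_ae
      filter_upwards with x
      rw [intervalIntegral.integral_of_le (by norm_num), integral_mul_const]
    · refine Integrable.of_bound (C := 1) ?_ ?_
      · apply Measurable.aestronglyMeasurable
        have h1 : Measurable fun p : ℝ × X => w σ e T (σ (p.1 * y) p.2) :=
          (w_meas hσ he hT).comp
            (hσ.meas.comp ((measurable_fst.mul_const y).prodMk measurable_snd))
        exact h1.mul ((w_meas hσ he hT).comp measurable_snd)
      · filter_upwards with p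
        rw [Real.norm_eq_abs]
        change |w σ e T (σ (p.1 * y) p.2) * w σ e T p.2| ≤ 1
        rw [abs_mul]
        exact mul_le_one₀ (w_bdd hσ he hb hT _) (abs_nonneg _) (w_bdd hσ he hb hT _)
  rw [hsw]
  have hin : ∀ x, |∫ a in (1 : ℝ)..2, w σ e T (σ (a * y) x)| ≤ 4 * T / Y := by
    intro x
    rw [intervalIntegral.integral_comp_mul_right (fun s => w σ e T (σ s x)) hy0, smul_eq_mul,
      one_mul, abs_mul, abs_inv]
    calc |y|⁻¹ * |∫ s in y..(2 * y), w σ e T (σ s x)| ≤ Y⁻¹ * (4 * T) := by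
          apply mul_le_mul _ (w_int hσ he hb hT x y) (abs_nonneg _) (by positivity)
          exact inv_anti₀ hY hy
      _ = 4 * T / Y := by ring
  have h1 : ‖∫ x, (∫ a in (1 : ℝ)..2, w σ e T (σ (a * y) x)) * w σ e T x ∂μ‖ ≤
      (4 * T / Y) * μ.real Set.univ := by
    refine norm_integral_le_of_norm_le_const (Eventually.of_forall fun x => ?_)
    rw [Real.norm_eq_abs, abs_mul]
    calc |∫ a in (1 : ℝ)..2, w σ e T (σ (a * y) x)| * |w σ e T x| ≤ (4 * T / Y) * 1 :=
          mul_le_mul (hin x) (w_bdd hσ he hb hT x) (abs_nonneg _) (by positivity)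
      _ = _ := mul_one _
  simpa using h1

end

theorem t_BSM : S_BSM.{u} := by
  classical
  intro X _ μ _ σ e Q N G Near T Y hσ he hb hN hT hY hfar
  have hNr : (0 : ℝ) < N := by exact_mod_cast hN
  set V : ℕ → X → ℝ := fun n => if n ∈ G then w σ e T else 0 with hVdef
  have hV : ∀ n, Measurable (V n) := by
    intro n
    rw [hVdef]
    by_cases h : n ∈ G
    · simp only [h, if_true]
      exact w_meas hσ he hT
    · simp only [h, if_false]
      exact measurable_zero
  have hVb : ∀ n x, |V n x| ≤ 1 := by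
    intro n x
    rw [hVdef]
    by_cases h : n ∈ G
    · simp only [h, if_true]
      exact w_bdd hσ he hb hT x
    · simp only [h, if_false]
      simp
  have hint : ∀ a x, (∑ n ∈ range N,
      if n ∈ G then e (σ (a * Q n) x) - smo σ e T (σ (a * Q n) x) else 0) =
      ∑ n ∈ range N, V n (σ (a * Q n) x) := by
    intro a x
    refine sum_congr rfl fun n _ => ?_
    rw [hVdef]
    by_cases h : n ∈ G
    · simp only [h, if_true]
      rfl
    · simp only [h, if_false]
      rfl
  have hpm : ∀ n m y, Measurable fun a : ℝ => phi μ σ V n m (a * y) := fun n m y =>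
    (phi_meas hσ hV n m).comp (measurable_id.mul_const y)
  have hpb : ∀ n m y a, |phi μ σ V n m (a * y)| ≤ 1 := fun n m y a => phi_bdd hVb n m _
  have hii : ∀ n m y, IntervalIntegrable (fun a : ℝ => phi μ σ V n m (a * y)) volume 1 2 :=
    fun n m y => ii (hpm n m y) 1 (hpb n m y) _ _
  have hL : ∫ a in (1 : ℝ)..2, ∫ x, ((1 / (N : ℝ)) * ∑ n ∈ range N,
      if n ∈ G then e (σ (a * Q n) x) - smo σ e T (σ (a * Q n) x) else 0) ^ 2 ∂μ =
      (1 / (N : ℝ)) ^ 2 * ∑ n ∈ range N, ∑ m ∈ range N,
        ∫ a in (1 : ℝ)..2, phi μ σ V n m (a * (Q n - Q m)) := by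
    simp only [hint, sq_eq hσ hV hVb]
    rw [intervalIntegral.integral_const_mul]
    congr 1
    exact dsum2 (f := fun n m a => phi μ σ V n m (a * (Q n - Q m))) (fun n m => hii n m _) _ _
  have hJ : ∀ n ∈ range N, ∀ m ∈ range N, ∫ a in (1 : ℝ)..2, phi μ σ V n m (a * (Q n - Q m)) ≤
      (if (n, m) ∈ Near then 1 else 0) + 4 * T / Y := by
    intro n hn m hm
    have hp : 0 ≤ 4 * T / Y := by positivity
    have hp2 : (0 : ℝ) ≤ if (n, m) ∈ Near then 1 else 0 := by split_ifs <;> norm_num
    by_cases h1 : n ∈ G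
    · by_cases h2 : m ∈ G
      · by_cases h3 : (n, m) ∈ Near
        · rw [if_pos h3]
          have := (le_abs_self _).trans (bound2 1 (hpb n m (Q n - Q m)))
          linarith
        · rw [if_neg h3, zero_add]
          have hy := hfar n m (mem_range.1 hn) (mem_range.1 hm) h1 h2 h3
          refine (le_abs_self _).trans (far hσ he hb hT hY V n m ?_ ?_ _ hy)
          · rw [hVdef]; simp only [h1, if_true]
          · rw [hVdef]; simp only [h2, if_true]
      · have h3 : ∀ s, phi μ σ V n m s = 0 := by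
          intro s
          have h4 : V m = 0 := by rw [hVdef]; simp only [h2, if_false]
          unfold phi
          rw [h4]
          simp
        simp only [h3, intervalIntegral.integral_zero]
        linarith
    · have h3 : ∀ s, phi μ σ V n m s = 0 := by
        intro s
        have h4 : V n = 0 := by rw [hVdef]; simp only [h1, if_false]
        unfold phi
        rw [h4]
        simp
      simp only [h3, intervalIntegral.integral_zero]
      linarith
  have hsum : ∑ n ∈ range N, ∑ m ∈ range N, ∫ a in (1 : ℝ)..2, phi μ σ V n m (a * (Q n - Q m)) ≤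
      Near.card + (N : ℝ) ^ 2 * (4 * T / Y) := by
    refine (sum_le_sum fun n hn => sum_le_sum fun m hm => hJ n hn m hm).trans ?_
    have h1 : ∑ n ∈ range N, ∑ m ∈ range N, (if (n, m) ∈ Near then (1 : ℝ) else 0) ≤ Near.card := by
      rw [← sum_product (f := fun p : ℕ × ℕ => if p ∈ Near then (1 : ℝ) else 0),
        ← sum_filter, sum_const, nsmul_eq_mul, mul_one]
      have h2 : ((range N ×ˢ range N).filter (fun p => p ∈ Near)).card ≤ Near.card :=
        card_le_card fun p hp => (mem_filter.1 hp).2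
      exact_mod_cast h2
    simp only [sum_add_distrib, sum_const, card_range, nsmul_eq_mul] at h1 ⊢
    nlinarith [h1]
  rw [hL]
  refine (mul_le_mul_of_nonneg_left hsum (by positivity)).trans (le_of_eq ?_)
  field_simp

end Pool.Agent.R157.TB
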